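import Pool.Agent.Helper242.RM.Fin2

/-!
# The transfer operator `G_4`: the eigenvalues alternate in sign
-/

set_option autoImplicit false

namespace Pool.Agent.Results.MP_9ff751_an.AlternatingSigns

open Module Module.End

/-- The closed disc `|z - 1| ≤ 3/2`, the closure of `Δ`. -/
abbrev Disc : Set ℂ := Metric.closedBall (1 : ℂ) (3 / 2)

open Classical in
/-- Extension by zero to `ℂ` of a function on the closed disc. -/
noncomputable def ext (f : C(Disc, ℂ)) : ℂ → ℂ := fun z => if h : z ∈ Disc then f ⟨z, h⟩ else 0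

/-- The continuous function `f` on the closed disc is analytic in the open disc `Δ`. -/
def IsHolo (f : C(Disc, ℂ)) : Prop := DifferentiableOn ℂ (ext f) (Metric.ball (1 : ℂ) (3 / 2))

lemma ext_add (f g : C(Disc, ℂ)) : ext (f + g) = ext f + ext g := by
  funext z
  by_cases h : z ∈ Disc <;> simp [ext, h]

lemma ext_zero : ext (0 : C(Disc, ℂ)) = fun _ => 0 := by
  funext z
  by_cases h : z ∈ Disc <;> simp [ext, h]

lemma ext_smul (c : ℂ) (f : C(Disc, ℂ)) : ext (c • f) = c • ext f := by
  funext z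
  by_cases h : z ∈ Disc <;> simp [ext, h]

lemma isHolo_add {f g : C(Disc, ℂ)} (hf : IsHolo f) (hg : IsHolo g) : IsHolo (f + g) := by
  unfold IsHolo
  rw [ext_add]
  exact hf.add hg

lemma isHolo_zero : IsHolo 0 := by
  unfold IsHolo
  rw [ext_zero]
  exact differentiableOn_const 0

lemma isHolo_smul (c : ℂ) {f : C(Disc, ℂ)} (hf : IsHolo f) : IsHolo (c • f) := by
  unfold IsHolo
  rw [ext_smul]
  exact hf.const_smul c

/-- The continuous functions on the closed disc which are analytic in the open disc `Δ` form a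
linear subspace of the continuous functions (the proofs are the lemmas above). -/
noncomputable def XSub : Submodule ℂ C(Disc, ℂ) where
  carrier := {f | IsHolo f}
  add_mem' := isHolo_add
  zero_mem' := isHolo_zero
  smul_mem' := isHolo_smul

/-- The space `X` of the problem: the functions continuous on the closed disc and analytic in the
open disc `Δ`. -/
def X : Type := {f : C(Disc, ℂ) // IsHolo f}

/-- The linear structure of `X` is the pointwise one. -/
noncomputable instance instAddCommGroupX : AddCommGroup X := Submodule.addCommGroup XSub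

/-- The linear structure of `X` is the pointwise one. -/
noncomputable instance instModuleX : Module ℂ X := Submodule.module XSub

/-- The value `G_4[f](z) = ∑_{k ≥ 1} (k+z)^{-4} f(1/(k+z))` (the index is shifted by one). -/
noncomputable def Gval (f : C(Disc, ℂ)) (z : ℂ) : ℂ :=
  ∑' n : ℕ, 1 / (((n : ℂ) + 1) + z) ^ 4 * ext f (1 / (((n : ℂ) + 1) + z))

lemma four : (1 : ℝ) < 4 := by norm_num

lemma Gval_eq (f : C(Disc, ℂ)) (z : ℂ) : Gval f z = Pool.Agent.Helper242.RM.Gval 4 f z := by
  unfold Gval Pool.Agent.Helper242.RM.Gval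
  refine tsum_congr fun n => ?_
  have e : z + ((n : ℂ) + 1) = ((n : ℂ) + 1) + z := add_comm _ _
  have : (-((4:ℝ) : ℂ)) = ((-4 : ℤ) : ℂ) := by push_cast; rfl
  rw [this, Complex.cpow_intCast, zpow_neg, e, one_div, one_div]
  norm_cast

/-- Sanity: the points at which `f` is evaluated lie in the closed disc, and the series
converges. -/
lemma sanity (f : C(Disc, ℂ)) (z : ℂ) (hz : z ∈ Disc) :
    (∀ n : ℕ, 1 / (((n : ℂ) + 1) + z) ∈ Disc) ∧
    Summable (fun n : ℕ => 1 / (((n : ℂ) + 1) + z) ^ 4 * ext f (1 / (((n : ℂ) + 1) + z))) := by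
  constructor
  · intro n
    rw [one_div, add_comm]
    exact Pool.Agent.Helper242.RM.gv_inv_mem z hz n
  · refine (Pool.Agent.Helper242.RM.gv_term_summable 4 four f z hz).congr fun n => ?_
    have e : z + ((n : ℂ) + 1) = ((n : ℂ) + 1) + z := add_comm _ _
    have : (-((4:ℝ) : ℂ)) = ((-4 : ℤ) : ℂ) := by push_cast; rfl
    rw [this, Complex.cpow_intCast, zpow_neg, e, one_div, one_div]
    norm_cast

lemma continuous_Gval (f : X) : Continuous (fun z : Disc => Gval f.1 z) := by
  have h := Pool.Agent.Helper242.RM.Gval_continuous 4 four f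
  simpa only [← Gval_eq] using h

/-- The function `G_4 f` on the closed disc. -/
noncomputable def GC (f : X) : C(Disc, ℂ) := ⟨fun z : Disc => Gval f.1 z, continuous_Gval f⟩

lemma GC_eq (f : X) : GC f = (Pool.Agent.Helper242.RM.G 4 four f).1 := by
  ext z
  exact Gval_eq f.1 z

lemma isHolo_GC (f : X) : IsHolo (GC f) := by
  rw [GC_eq]
  exact (Pool.Agent.Helper242.RM.G 4 four f).2

/-- The operator `G_4 : X → X` as a map. -/
noncomputable def Gfun (f : X) : X := ⟨GC f, isHolo_GC f⟩

lemma Gfun_eq (f : X) : Gfun f = Pool.Agent.Helper242.RM.G 4 four f := Subtype.ext (GC_eq f)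

lemma Gfun_add (f g : X) : Gfun (f + g) = Gfun f + Gfun g := by
  rw [Gfun_eq, Gfun_eq, Gfun_eq]
  exact (Pool.Agent.Helper242.RM.G 4 four).map_add f g

lemma Gfun_smul (c : ℂ) (f : X) : Gfun (c • f) = c • Gfun f := by
  rw [Gfun_eq, Gfun_eq]
  exact (Pool.Agent.Helper242.RM.G 4 four).map_smul c f

/-- The operator `G_4 : X → X` as a linear map. -/
noncomputable def G4 : Module.End ℂ X where
  toFun := Gfun
  map_add' := Gfun_add
  map_smul' := Gfun_smul

/-- Sanity: `G_4[f](z) = ∑_{k ≥ 1} (k+z)^{-4} f(1/(k+z))` for every `z` in the closed disc. -/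
lemma G4_apply (f : X) (z : Disc) :
    (G4 f).1 z = ∑' n : ℕ, 1 / (((n : ℂ) + 1) + (z : ℂ)) ^ 4 *
      f.1 ⟨1 / (((n : ℂ) + 1) + (z : ℂ)), (sanity f.1 z z.2).1 n⟩ := by
  change Gval f.1 z = _
  unfold Gval
  refine tsum_congr fun n => ?_
  rw [ext, dif_pos]

lemma G4_eq : G4 = Pool.Agent.Helper242.RM.G 4 four := by
  apply LinearMap.ext
  intro f
  exact Gfun_eq f

/-- The algebraic multiplicity of `μ` as an eigenvalue of `G_4`: the dimension of the space
of all `f ∈ X` killed by some power of `G_4 - μ`. -/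
noncomputable def algMult (μ : ℂ) : ℕ := finrank ℂ (maxGenEigenspace G4 μ)

/-- The list `λ_1(4), λ_2(4), …` of the problem: `lam 1, lam 2, lam 3, …` lists the nonzero
eigenvalues of `G_4 : X → X`, each repeated according to its algebraic multiplicity, in order of
non-increasing absolute value. -/
structure IsEigenvalueList (lam : ℕ+ → ℂ) : Prop where
  /-- the entries are nonzero -/
  ne_zero : ∀ j, lam j ≠ 0
  /-- the entries are eigenvalues -/
  isEigenvalue : ∀ j, HasEigenvalue G4 (lam j)
  /-- each nonzero value occurs finitely often -/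
  finite : ∀ μ : ℂ, μ ≠ 0 → {j | lam j = μ}.Finite
  /-- each nonzero eigenvalue occurs as often as its algebraic multiplicity -/
  card : ∀ μ : ℂ, μ ≠ 0 → HasEigenvalue G4 μ → {j | lam j = μ}.ncard = algMult μ
  /-- the absolute values are nonincreasing -/
  antitone : ∀ i j, i ≤ j → ‖lam j‖ ≤ ‖lam i‖

lemma isEigenvalueList_iff (lam : ℕ+ → ℂ) :
    IsEigenvalueList lam ↔ Pool.Agent.Helper242.RM.IsEigenvalueList 4 four lam := by
  constructor
  · intro h
    refine ⟨h.1, ?_, h.3, ?_, h.5⟩
    · intro j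
      have := h.2 j
      rw [G4_eq] at this
      exact this
    · intro μ h0 hμ
      have := h.4 μ h0 (by rw [G4_eq]; exact hμ)
      unfold algMult at this
      rw [G4_eq] at this
      exact this
  · intro h
    refine ⟨h.1, ?_, h.3, ?_, h.5⟩
    · intro j
      rw [G4_eq]
      exact h.2 j
    · intro μ h0 hμ
      unfold algMult
      rw [G4_eq] at hμ ⊢
      exact h.4 μ h0 hμ

/-- The nonzero eigenvalues of `G_4`, listed by non-increasing absolute value and repeated
according to algebraic multiplicity, form an infinite list `λ_1, λ_2, …`; every such list is real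
and alternates in sign, `(-1)^(j-1) λ_j > 0` for all `j ≥ 1`; moreover every `λ_j` has algebraic
multiplicity one and `|λ_1| > |λ_2| > |λ_3| > …`, so that the list is unique. -/
theorem result :
    (∃! lam : ℕ+ → ℂ, IsEigenvalueList lam) ∧
    ∀ lam : ℕ+ → ℂ, IsEigenvalueList lam →
      (∀ j : ℕ+, ∃ x : ℝ, lam j = (x : ℂ) ∧ 0 < (-1 : ℝ) ^ ((j : ℕ) - 1) * x) ∧
      (∀ j : ℕ+, algMult (lam j) = 1) ∧
      (∀ i j : ℕ+, i < j → ‖lam j‖ < ‖lam i‖) := by
  have hsign : ∀ lam : ℕ+ → ℂ, IsEigenvalueList lam →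
      ∀ j : ℕ+, ∃ x : ℝ, lam j = (x : ℂ) ∧ 0 < (-1 : ℝ) ^ ((j : ℕ) - 1) * x := by
    intro lam h j
    obtain ⟨x, hx, hx'⟩ := Pool.Agent.Helper242.RM.list_sign 4 four lam
      ((isEigenvalueList_iff lam).1 h) j
    refine ⟨x, hx, ?_⟩
    have e : (j : ℕ) + 1 = ((j : ℕ) - 1) + 2 := by
      have := j.pos
      omega
    rw [e, pow_add] at hx'
    simpa using hx'
  have huniq : ∀ lam : ℕ+ → ℂ, IsEigenvalueList lam → ∀ j : ℕ+, algMult (lam j) = 1 ∧
      ∀ ν : ℂ, HasEigenvalue G4 ν → ‖ν‖ = ‖lam j‖ → ν = lam j := by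
    intro lam h j
    obtain ⟨h1, h2⟩ := Pool.Agent.Helper242.RM.list_isUnique 4 four lam
      ((isEigenvalueList_iff lam).1 h) j
    refine ⟨?_, ?_⟩
    · unfold algMult
      rw [G4_eq]
      exact h1
    · intro ν hν
      rw [G4_eq] at hν
      exact h2 ν hν
  have hstrict : ∀ lam : ℕ+ → ℂ, IsEigenvalueList lam →
      ∀ i j : ℕ+, i < j → ‖lam j‖ < ‖lam i‖ := by
    intro lam h i j hij
    rcases (h.antitone i j hij.le).lt_or_eq with h1 | h1
    · exact h1
    · exfalso
      have h2 := (huniq lam h i).2 (lam j) (h.isEigenvalue j) h1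
      have h3 := h.card (lam i) (h.ne_zero i) (h.isEigenvalue i)
      rw [(huniq lam h i).1, Set.ncard_eq_one] at h3
      obtain ⟨a, ha⟩ := h3
      have hi : i ∈ ({a} : Set ℕ+) := by rw [← ha]; exact rfl
      have hj : j ∈ ({a} : Set ℕ+) := by rw [← ha]; exact h2
      rw [Set.mem_singleton_iff] at hi hj
      rw [hi, hj] at hij
      exact lt_irrefl _ hij
  refine ⟨?_, fun lam h => ⟨hsign lam h, fun j => (huniq lam h j).1, hstrict lam h⟩⟩
  obtain ⟨lam, hlam⟩ := Pool.Agent.Helper242.RM.exists_list 4 four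
  have hl := (isEigenvalueList_iff lam).2 hlam
  refine ⟨lam, hl, ?_⟩
  intro mu hm
  -- both lists have the same range and strictly decreasing absolute values
  have hrange : ∀ a b : ℕ+ → ℂ, IsEigenvalueList a → IsEigenvalueList b →
      ∀ j : ℕ+, ∃ i : ℕ+, b i = a j := by
    intro a b ha hb j
    have h3 := hb.card (a j) (ha.ne_zero j) (ha.isEigenvalue j)
    rw [(huniq a ha j).1, Set.ncard_eq_one] at h3
    obtain ⟨i, hi⟩ := h3
    exact ⟨i, by
      have : i ∈ {k | b k = a j} := by rw [hi]; exact rfl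
      exact this⟩
  have key : ∀ a b : ℕ+ → ℂ, IsEigenvalueList a → IsEigenvalueList b →
      ∀ j : ℕ+, (∀ i : ℕ+, i < j → a i = b i) → ‖a j‖ ≤ ‖b j‖ := by
    intro a b ha hb j hij
    obtain ⟨i, hi⟩ := hrange a b ha hb j
    rcases lt_or_ge i j with h | h
    · exfalso
      have h1 := hstrict a ha i j h
      rw [hij i h, hi] at h1
      exact lt_irrefl _ h1
    · rw [← hi]
      exact hb.antitone j i h
  funext j
  induction j using PNat.strongInductionOn with
  | _ j ih =>
    have h1 := key mu lam hm hl j (fun i hi => ih i hi)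
    have h2 := key lam mu hl hm j (fun i hi => (ih i hi).symm)
    have h3 : ‖mu j‖ = ‖lam j‖ := le_antisymm h1 h2
    exact (huniq lam hl j).2 (mu j) (hm.isEigenvalue j) h3

end Pool.Agent.Results.MP_9ff751_an.AlternatingSigns
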